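import Mathlib
import Pool.Agent.Helper547.Diestel.HB
import Pool.Agent.Helper547.LP.P_self_lp
import Pool.Agent.Helper547.LN.P_theta
import Pool.Agent.Helper547.LN.P_comp
import Pool.Agent.Helper547.LN.P_split2
import Pool.Agent.Helper547.LN.P_star
import Pool.Agent.Helper547.LN.P_kinq2
import Pool.Agent.Helper547.LN.P_ell2L1
import Pool.Agent.Helper547.LN.P_sephil
import Pool.Agent.Helper547.LN.P_ellmono

set_option autoImplicit false

open MeasureTheory TopologicalSpace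
open scoped ENNReal

universe u v

namespace Pool.Agent.Results.MP_cdd7b4_an.SubspacesOfL1

/-- The Lebesgue-Bochner space `L¹([0,1],X)` (Lebesgue measure on `[0,1]`). -/
abbrev L1I (X : Type u) [NormedAddCommGroup X] : Type u :=
  Lp X 1 (volume.restrict (Set.Icc (0 : ℝ) 1))

/-- The space `ℓ²(X)` of square summable sequences in `X`. -/
abbrev Ell2 (X : Type u) [NormedAddCommGroup X] : Type u := lp (fun _ : ℕ => X) 2

/-- `B` contains a copy of `A`: there is a bounded linear map `A → B` which is bounded below. -/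
def EmbedsIn (A : Type u) (B : Type v) [NormedAddCommGroup A] [NormedSpace ℝ A]
    [NormedAddCommGroup B] [NormedSpace ℝ B] : Prop :=
  ∃ T : A →L[ℝ] B, ∃ c : ℝ, 0 < c ∧ ∀ a, c * ‖a‖ ≤ ‖T a‖

/-- `X` is isomorphic to a Hilbert space (possibly finite dimensional). -/
def IsHilbertian (X : Type u) [NormedAddCommGroup X] [NormedSpace ℝ X] : Prop :=
  ∃ (H : Type u) (_ : NormedAddCommGroup H) (_ : InnerProductSpace ℝ H),
    CompleteSpace H ∧ Nonempty (X ≃L[ℝ] H)

open Pool.Agent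

lemma trans' {A : Type*} {B : Type*} {D : Type*} [NormedAddCommGroup A] [NormedSpace ℝ A]
    [NormedAddCommGroup B] [NormedSpace ℝ B] [NormedAddCommGroup D] [NormedSpace ℝ D]
    (h1 : LNN.EmbedsIn A B) (h2 : LNN.EmbedsIn B D) : LNN.EmbedsIn A D := by
  obtain ⟨T, c, hc, hT⟩ := h1
  obtain ⟨S, d, hd, hS⟩ := h2
  refine ⟨S.comp T, d * c, mul_pos hd hc, fun a => ?_⟩
  calc d * c * ‖a‖ = d * (c * ‖a‖) := by ring
    _ ≤ d * ‖T a‖ := mul_le_mul_of_nonneg_left (hT a) hd.le
    _ ≤ ‖S (T a)‖ := hS _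

instance : IsProbabilityMeasure (LNN.mu01) := ⟨by simp [LNN.mu01]⟩

/-- If `ℓ²(X)` embeds in an `L¹` space then `X` is Hilbertian. -/
lemma hilb_of_ell2 (X : Type u) [NormedAddCommGroup X] [NormedSpace ℝ X] [CompleteSpace X]
    {Ω : Type} [MeasurableSpace Ω] (ν : Measure Ω) [IsProbabilityMeasure ν]
    (h : LNN.EmbedsIn (lp (fun _ : ℕ => X) 2) (Lp ℝ 1 ν)) : IsHilbertian X := by
  obtain ⟨J, c, C, hc, hC, hJ⟩ := LNN.split2 h
  have hs := LNN.star ν J c C hc hC hJ
  have h2C : 0 < 2 * C := by linarith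
  obtain ⟨co, hco⟩ := Helper547.Diestel.exists_core (V := X) (max 1 ((2 * (2 * C) / c) ^ 2))
    (le_max_left _ _) (fun s s' z z' hz => by
      refine (LNN.kinq2 ν J c (2 * C) hc h2C hs s s' z z' hz).trans ?_
      exact mul_le_mul_of_nonneg_right (le_max_right _ _)
        (Finset.sum_nonneg fun i _ => sq_nonneg _))
  exact Helper547.Diestel.hilb_of_core _ ((zero_le_one).trans (le_max_left _ _)) co hco

lemma forward (X : Type u) [NormedAddCommGroup X] [NormedSpace ℝ X] [CompleteSpace X]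
    (hX : EmbedsIn X (L1I ℝ)) (h : EmbedsIn (Ell2 X) (L1I X)) : IsHilbertian X := by
  have h1 : LNN.EmbedsIn (L1I X) (LNN.L1I (LNN.L1I ℝ)) := LNN.comp hX
  obtain ⟨T, hT⟩ := LNN.theta
  have h2 : LNN.EmbedsIn (LNN.L1I (LNN.L1I ℝ)) (Lp ℝ 1 (LNN.mu01.prod LNN.mu01)) :=
    ⟨T, 1, one_pos, fun a => by rw [hT, one_mul]⟩
  have h3 : LNN.EmbedsIn (Ell2 X) (L1I X) := h
  exact hilb_of_ell2 X (LNN.mu01.prod LNN.mu01) (trans' h3 (trans' h1 h2))

lemma backward (X : Type u) [NormedAddCommGroup X] [NormedSpace ℝ X] [CompleteSpace X]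
    [SeparableSpace X] (h : IsHilbertian X) : EmbedsIn (Ell2 X) (L1I X) := by
  rcases subsingleton_or_nontrivial X with hs | hn
  · refine ⟨0, 1, one_pos, fun a => ?_⟩
    have : a = 0 := by
      ext i
      exact Subsingleton.elim _ _
    rw [this]
    simp
  obtain ⟨H, i1, i2, i3, ⟨e⟩⟩ := h
  have : SeparableSpace H := e.surjective.denseRange.separableSpace e.continuous
  have e1 : LNN.EmbedsIn X H := by
    refine ⟨(e : X →L[ℝ] H), (‖(e.symm : H →L[ℝ] X)‖ + 1)⁻¹, by positivity, fun x => ?_⟩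
    rw [inv_mul_le_iff₀ (by positivity)]
    have h1 := (e.symm : H →L[ℝ] X).le_opNorm (e x)
    have h2 : (e.symm : H →L[ℝ] X) (e x) = x := e.symm_apply_apply x
    rw [h2] at h1
    have h3 : (e : X →L[ℝ] H) x = e x := rfl
    rw [h3]
    nlinarith [norm_nonneg (e x)]
  have e2 : LNN.EmbedsIn X (lp (fun _ : ℕ => ℝ) 2) := trans' e1 (LNN.sephil H)
  have e3 := LNN.ellmono e2
  have e4 : LNN.EmbedsIn (lp (fun _ : ℕ => lp (fun _ : ℕ => ℝ) 2) 2) (lp (fun _ : ℕ => ℝ) 2) :=
    LPP.self_lp ℝ 2 (by norm_num)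
  obtain ⟨z, hz⟩ := exists_norm_eq X (zero_le_one (α := ℝ))
  have e5 : LNN.EmbedsIn ℝ X := by
    refine ⟨ContinuousLinearMap.toSpanSingleton ℝ z, 1, one_pos, fun a => ?_⟩
    rw [ContinuousLinearMap.toSpanSingleton_apply, norm_smul, hz, one_mul, mul_one]
  have e6 : LNN.EmbedsIn (LNN.L1I ℝ) (LNN.L1I X) := LNN.comp e5
  exact trans' e3 (trans' e4 (trans' LNN.ell2L1 e6))

/-- For a separable real Banach space `X` that is isomorphic to a subspace of `L¹[0,1]`, the space
`L¹([0,1],X)` contains a copy of `ℓ²(X)` if and only if `X` is isomorphic to a Hilbert space; the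
direct implication does not need separability. -/
theorem result :
    (∀ (X : Type u) [NormedAddCommGroup X] [NormedSpace ℝ X] [CompleteSpace X]
      [SeparableSpace X], EmbedsIn X (L1I ℝ) →
        (EmbedsIn (Ell2 X) (L1I X) ↔ IsHilbertian X)) ∧
    (∀ (X : Type u) [NormedAddCommGroup X] [NormedSpace ℝ X] [CompleteSpace X],
      EmbedsIn X (L1I ℝ) → EmbedsIn (Ell2 X) (L1I X) → IsHilbertian X) :=
  ⟨fun X _ _ _ _ hX => ⟨forward X hX, backward X⟩, fun X _ _ _ hX h => forward X hX h⟩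

end Pool.Agent.Results.MP_cdd7b4_an.SubspacesOfL1
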