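import Mathlib
import Pool.Agent.Results.MP_cdd7b4_an.SubspacesOfL1
import Pool.Agent.Helper547.LP.P_core
import Pool.Agent.Helper547.LP.P_ext
import Pool.Agent.Helper547.LP.P_split_lp
import Pool.Agent.Helper547.LP.P_const_emb
import Pool.Agent.Helper547.LP.P_self_lp
import Pool.Agent.Helper547.LN.P_ell2L1
import Pool.Agent.Helper547.LN.P_ell1L1
import Pool.Agent.Helper547.LN.P_nothilb

set_option autoImplicit false

open MeasureTheory TopologicalSpace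
open scoped ENNReal

universe u v

namespace Pool.Agent.Results.MP_cdd7b4_an.LpScale

/-- The Lebesgue-Bochner space `L¹([0,1],X)` (Lebesgue measure on `[0,1]`). -/
abbrev L1I (X : Type u) [NormedAddCommGroup X] : Type u :=
  Lp X 1 (volume.restrict (Set.Icc (0 : ℝ) 1))

/-- The space `ℓ^p(X)` of `p`-summable sequences in `X`. -/
abbrev Ell (p : ℝ≥0∞) (X : Type u) [NormedAddCommGroup X] : Type u := lp (fun _ : ℕ => X) p

/-- `B` contains a copy of `A`: there is a bounded linear map `A → B` which is bounded below. -/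
def EmbedsIn (A : Type u) (B : Type v) [NormedAddCommGroup A] [NormedSpace ℝ A]
    [NormedAddCommGroup B] [NormedSpace ℝ B] : Prop :=
  ∃ T : A →L[ℝ] B, ∃ c : ℝ, 0 < c ∧ ∀ a, c * ‖a‖ ≤ ‖T a‖

open Pool.Agent

lemma transfer (X : Type u) [NormedAddCommGroup X] [NormedSpace ℝ X] [CompleteSpace X]
    (p q : ℝ≥0∞) [Fact (1 ≤ p)] [Fact (1 ≤ q)] (hq : 1 < q) (hqp : q ≤ p) (hp : p ≠ ⊤)
    (h : EmbedsIn (Ell p X) (L1I X)) : EmbedsIn (Ell q X) (L1I X) := by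
  rcases hqp.eq_or_lt with rfl | hlt
  · exact h
  have hq' : q ≠ ⊤ := ne_top_of_lt hlt
  obtain ⟨J, c, C, hc, hC, h1, h2⟩ := LPP.split_lp (X := X) (Z := L1I X) p hp h
  have hq1 : 1 < q.toReal := by
    rw [← ENNReal.toReal_one]
    exact (ENNReal.toReal_lt_toReal ENNReal.one_ne_top hq').2 hq
  have hqp1 : q.toReal < p.toReal := (ENNReal.toReal_lt_toReal hq' hp).2 hlt
  obtain ⟨T, c', C', hc', hC', h3⟩ := LPP.core p.toReal q.toReal hq1 hqp1 J c C hc hC h1 h2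
  exact LPP.ext q hq' T c' C' hc' hC' h3

lemma positive (p : ℝ≥0∞) [Fact (1 ≤ p)] (hp : p ≠ ⊤) (h2 : 2 ≤ p) :
    EmbedsIn (Ell 2 (Ell p ℝ)) (L1I (Ell p ℝ)) := by
  refine transfer (Ell p ℝ) p 2 (by norm_num) h2 hp ?_
  exact SubspacesOfL1.trans' (LPP.self_lp ℝ p hp) (LPP.const_emb (Ell p ℝ))

lemma inL1 (p : ℝ≥0∞) [Fact (1 ≤ p)] (h2 : p < 2) : EmbedsIn (Ell p ℝ) (L1I ℝ) := by
  rcases (Fact.out : (1 : ℝ≥0∞) ≤ p).eq_or_lt with h | h
  · subst h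
    exact LNN.ell1L1
  · exact transfer ℝ 2 p h h2.le (by norm_num) LNN.ell2L1

lemma negative (p : ℝ≥0∞) [Fact (1 ≤ p)] (h2 : p < 2)
    (h : EmbedsIn (Ell 2 (Ell p ℝ)) (L1I (Ell p ℝ))) : False := by
  obtain ⟨H, i1, i2, i3, ⟨e⟩⟩ := SubspacesOfL1.forward (Ell p ℝ) (inL1 p h2) h
  exact LNN.nothilb p h2 H e

/-- For `1 ≤ p < ∞`, the space `L¹([0,1], ℓ^p)` contains a copy of `ℓ²(ℓ^p)` if and only if
`2 ≤ p`. -/
theorem result (p : ℝ≥0∞) [Fact (1 ≤ p)] (hp : p ≠ ⊤) :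
    EmbedsIn (Ell 2 (Ell p ℝ)) (L1I (Ell p ℝ)) ↔ 2 ≤ p := by
  refine ⟨fun h => ?_, positive p hp⟩
  by_contra hlt
  exact negative p (not_le.1 hlt) h

end Pool.Agent.Results.MP_cdd7b4_an.LpScale
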