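import Mathlib
import Pool.Agent.Helper547.LP.P_core
import Pool.Agent.Helper547.LP.P_ext
import Pool.Agent.Helper547.LP.P_split_lp
import Pool.Agent.Helper547.LP.P_split_c0
import Pool.Agent.Helper547.LP.P_const_emb
import Pool.Agent.Helper547.LP.P_self_lp
import Pool.Agent.Helper547.LP.P_self_c0

set_option autoImplicit false

open MeasureTheory TopologicalSpace
open scoped ENNReal ZeroAtInfty

universe u v


namespace Pool.Agent.Results.MP_cdd7b4_an.LpTransfer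

/-- The Lebesgue-Bochner space `L¹([0,1],X)` (Lebesgue measure on `[0,1]`). -/
abbrev L1I (X : Type u) [NormedAddCommGroup X] : Type u :=
  Lp X 1 (volume.restrict (Set.Icc (0 : ℝ) 1))

/-- The space `ℓ^p(X)` of `p`-summable sequences in `X`. -/
abbrev Ell (p : ℝ≥0∞) (X : Type u) [NormedAddCommGroup X] : Type u := lp (fun _ : ℕ => X) p

/-- The space `c₀(X)` of null sequences in `X` with the supremum norm. -/
abbrev CZero (X : Type u) [NormedAddCommGroup X] : Type u := ZeroAtInftyContinuousMap ℕ X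

/-- `B` contains a copy of `A`: there is a bounded linear map `A → B` which is bounded below. -/
def EmbedsIn (A : Type u) (B : Type v) [NormedAddCommGroup A] [NormedSpace ℝ A]
    [NormedAddCommGroup B] [NormedSpace ℝ B] : Prop :=
  ∃ T : A →L[ℝ] B, ∃ c : ℝ, 0 < c ∧ ∀ a, c * ‖a‖ ≤ ‖T a‖

/-- `B` contains a copy of `ℓ^p(X)` for some `2 ≤ p < ∞`, or a copy of `c₀(X)`. -/
def ContainsLarge (X : Type u) [NormedAddCommGroup X] [NormedSpace ℝ X] (B : Type v)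
    [NormedAddCommGroup B] [NormedSpace ℝ B] : Prop :=
  (∃ (p : ℝ≥0∞) (_ : Fact (1 ≤ p)), 2 ≤ p ∧ p ≠ ⊤ ∧ EmbedsIn (Ell p X) B) ∨
    EmbedsIn (CZero X) B

open Pool.Agent

lemma transfer (X : Type u) [NormedAddCommGroup X] [NormedSpace ℝ X] [CompleteSpace X] (p q : ℝ≥0∞)
    [Fact (1 ≤ p)] [Fact (1 ≤ q)] (hq : 1 < q) (hqp : q ≤ p) (hp : p ≠ ⊤)
    (h : EmbedsIn (Ell p X) (L1I X)) : EmbedsIn (Ell q X) (L1I X) := by
  rcases hqp.eq_or_lt with rfl | hlt
  · exact h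
  have hq' : q ≠ ⊤ := ne_top_of_lt hlt
  obtain ⟨J, c, C, hc, hC, h1, h2⟩ := LPP.split_lp (X := X) (Z := L1I X) p hp h
  have hq1 : 1 < q.toReal := by
    rw [← ENNReal.toReal_one]
    exact (ENNReal.toReal_lt_toReal ENNReal.one_ne_top hq').2 hq
  have hqp1 : q.toReal < p.toReal := (ENNReal.toReal_lt_toReal hq' hp).2 hlt
  obtain ⟨T, c', C', hc', hC', h3⟩ := LPP.core p.toReal q.toReal hq1 hqp1 J c C hc hC h1 h2
  exact LPP.ext q hq' T c' C' hc' hC' h3

lemma transfer0 (X : Type u) [NormedAddCommGroup X] [NormedSpace ℝ X] [CompleteSpace X] (q : ℝ≥0∞)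
    [Fact (1 ≤ q)] (hq : 1 < q) (hq' : q ≠ ⊤)
    (h : EmbedsIn (CZero X) (L1I X)) : EmbedsIn (Ell q X) (L1I X) := by
  have hq1 : 1 < q.toReal := by
    rw [← ENNReal.toReal_one]
    exact (ENNReal.toReal_lt_toReal ENNReal.one_ne_top hq').2 hq
  obtain ⟨J, c, C, hc, hC, h1, h2⟩ :=
    LPP.split_c0 (X := X) (Z := L1I X) (q.toReal + 1) (by linarith) h
  obtain ⟨T, c', C', hc', hC', h3⟩ :=
    LPP.core (q.toReal + 1) q.toReal hq1 (by linarith) J c C hc hC h1 h2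
  exact LPP.ext q hq' T c' C' hc' hC' h3

lemma main_iff (X : Type u) [NormedAddCommGroup X] [NormedSpace ℝ X] [CompleteSpace X] :
    EmbedsIn (Ell 2 X) (L1I X) ↔ ContainsLarge X (L1I X) := by
  constructor
  · intro h
    exact Or.inl ⟨2, inferInstance, le_rfl, by norm_num, h⟩
  · rintro (⟨p, hp1, h2, hp, h⟩ | h)
    · exact transfer X p 2 (by norm_num) h2 hp h
    · exact transfer0 X 2 (by norm_num) (by norm_num) h

lemma of_self (X : Type u) [NormedAddCommGroup X] [NormedSpace ℝ X] [CompleteSpace X] (h : ContainsLarge X X) :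
    EmbedsIn (Ell 2 X) (L1I X) := by
  refine (main_iff X).2 ?_
  rcases h with ⟨p, hp1, h2, hp, h⟩ | h
  · exact Or.inl ⟨p, hp1, h2, hp, LPP.emb_comp h (LPP.const_emb X)⟩
  · exact Or.inr (LPP.emb_comp h (LPP.const_emb X))

/-- Transfer of copies of `ℓ^p(X)` in `L¹([0,1],X)`, and consequences for Diestel's question. -/
theorem result :
    (∀ (X : Type u) [NormedAddCommGroup X] [NormedSpace ℝ X] [CompleteSpace X],
      (∀ (p q : ℝ≥0∞) [Fact (1 ≤ p)] [Fact (1 ≤ q)], 1 < q → q ≤ p → p ≠ ⊤ →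
        EmbedsIn (Ell p X) (L1I X) → EmbedsIn (Ell q X) (L1I X)) ∧
      (∀ (q : ℝ≥0∞) [Fact (1 ≤ q)], 1 < q → q ≠ ⊤ →
        EmbedsIn (CZero X) (L1I X) → EmbedsIn (Ell q X) (L1I X)) ∧
      (EmbedsIn (Ell 2 X) (L1I X) ↔ ContainsLarge X (L1I X)) ∧
      (ContainsLarge X X → EmbedsIn (Ell 2 X) (L1I X))) ∧
    (∀ (Y : Type u) [NormedAddCommGroup Y] [NormedSpace ℝ Y] [CompleteSpace Y],
      (∀ (p : ℝ≥0∞) [Fact (1 ≤ p)], 2 ≤ p → p ≠ ⊤ →
        EmbedsIn (Ell 2 (Ell p Y)) (L1I (Ell p Y))) ∧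
      EmbedsIn (Ell 2 (CZero Y)) (L1I (CZero Y))) := by
  refine ⟨fun X _ _ _ => ⟨?_, ?_, main_iff X, of_self X⟩, fun Y _ _ _ => ⟨?_, ?_⟩⟩
  · intro p q _ _ hq hqp hp h
    exact transfer X p q hq hqp hp h
  · intro q _ hq hq' h
    exact transfer0 X q hq hq' h
  · intro p _ h2 hp
    exact of_self _ (Or.inl ⟨p, inferInstance, h2, hp, LPP.self_lp Y p hp⟩)
  · exact of_self _ (Or.inr (LPP.self_c0 Y))

end Pool.Agent.Results.MP_cdd7b4_an.LpTransfer
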