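import Pool.Agent.Helper808.Ell2.Main

set_option autoImplicit false

namespace Pool.Agent.Results.MP_cdd7b4_an.SumsOfCopies

open MeasureTheory ENNReal Pool.Agent.Helper808.Ell2

/-- **Main result.** Let `2 ≤ p ≤ ∞`. If the Banach space `X` contains a copy of `ℓᵖ(X)`, or a copy
of `c₀(X)`, then `L¹([0,1], X)` contains a copy of `ℓ²(X)`. In particular this holds for
`X = ℓᵖ(Y)` and `X = c₀(Y)` for every Banach space `Y`. -/
theorem result (𝕜 : Type) [RCLike 𝕜] :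
    (∀ (X : Type) [NormedAddCommGroup X] [NormedSpace 𝕜 X] [CompleteSpace X]
      (p : ℝ≥0∞) [Fact (1 ≤ p)], 2 ≤ p → ContainsLp 𝕜 X p → Diestel 𝕜 X) ∧
    (∀ (X : Type) [NormedAddCommGroup X] [NormedSpace 𝕜 X] [CompleteSpace X],
      ContainsC0 𝕜 X → Diestel 𝕜 X) ∧
    (∀ (Y : Type) [NormedAddCommGroup Y] [NormedSpace 𝕜 Y] [CompleteSpace Y]
      (p : ℝ≥0∞) [Fact (1 ≤ p)], 2 ≤ p → DiestelLp 𝕜 Y p) ∧
    (∀ (Y : Type) [NormedAddCommGroup Y] [NormedSpace 𝕜 Y] [CompleteSpace Y],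
      DiestelC0 𝕜 Y) := by
  have A : ∀ (X : Type) [NormedAddCommGroup X] [NormedSpace 𝕜 X] [CompleteSpace X]
      (p : ℝ≥0∞) [Fact (1 ≤ p)], 2 ≤ p → Copy 𝕜 (lp (fun _ : ℕ => X) p) X →
        Copy 𝕜 (ell2 X) (L1 X) := by
    intro X _ _ _ p _ hp h
    rcases hp.eq_or_lt with h2 | h2
    · subst h2
      exact copy_const 𝕜 X h
    · obtain ⟨T, q, c, C, hq, hc, h1, h2⟩ := JF6.ops_of_lp 𝕜 X p h2 h
      exact criterion 𝕜 X T q c C hq hc h1 h2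
  have B : ∀ (X : Type) [NormedAddCommGroup X] [NormedSpace 𝕜 X] [CompleteSpace X],
      Copy 𝕜 (ZeroAtInftyContinuousMap ℕ X) X → Copy 𝕜 (ell2 X) (L1 X) := by
    intro X _ _ _ h
    obtain ⟨T, q, c, C, hq, hc, h1, h2⟩ := JF6.ops_of_c0 𝕜 X h
    exact criterion 𝕜 X T q c C hq hc h1 h2
  refine ⟨A, B, ?_, ?_⟩
  · intro Y _ _ _ p _ hp
    exact A _ p hp (JF8.copy_lp_lp 𝕜 Y p)
  · intro Y _ _ _
    exact B _ (JF9.copy_c0_c0 𝕜 Y)

end Pool.Agent.Results.MP_cdd7b4_an.SumsOfCopies
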